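import Pool.Agent.W684.BR.Stm

set_option autoImplicit false

namespace Pool.Agent.W271.BR

open Pool.Agent.W684.BR

theorem fam_nonempty {X : ℕ → ℕ → Set ℝ} (hX : Fam X) (k m : ℕ) : (X k m).Nonempty := by
  by_contra hne
  rw [Set.not_nonempty_iff_eq_empty] at hne
  obtain ⟨i, hi⟩ := hX k m (fun _ => ∅) (by simp [hne])
  obtain ⟨r, hr, -⟩ := hi (fun r => r) (by intro a ha; simp at ha)
  simp at hr

theorem lex_lt_iff {a b : ℤ} {r s : ℝ} :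
    (toLex (a, r) : ℤ ×ₗ ℝ) < toLex (b, s) ↔ a < b ∨ a = b ∧ r < s := by
  rw [Prod.Lex.lt_iff]
  rfl

theorem mono_fst {p q : ℤ ×ₗ ℝ} (h : p ≤ q) : (ofLex p).1 ≤ (ofLex q).1 := by
  rw [Prod.Lex.le_iff] at h
  rcases h with h | h
  · exact h.le
  · exact h.1.le

theorem snd_lt {p q : ℤ ×ₗ ℝ} (h : p < q) (h1 : (ofLex p).1 = (ofLex q).1) :
    (ofLex p).2 < (ofLex q).2 := by
  rw [Prod.Lex.lt_iff] at h
  rcases h with h | h
  · exact absurd h1 h.ne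
  · exact h.2

theorem noemb : S_NOEMB := by
  rintro X hX x y ⟨K, hK⟩ ⟨g⟩
  have hg : ∀ p q : ↥(L X y), p < q → g p < g q := fun p q h => g.strictMono h
  -- membership of level points
  have hmem : ∀ (k m : ℕ) (r : ℝ), m ≤ y k → r ∈ X k m →
      (toLex ((Int.ofNat k : ℤ), r) : ℤ ×ₗ ℝ) ∈ L X y := by
    intro k m r hm hr
    exact ⟨m, hm, hr⟩
  -- Fact 1
  have fact1 : ∀ k ≥ K, ∃ (r : ℝ) (hr : r ∈ X k (y k)),
      (ofLex ((g ⟨toLex ((Int.ofNat k : ℤ), r), hmem k (y k) r le_rfl hr⟩ : ↥(L X x)) :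
        ℤ ×ₗ ℝ)).1 < 0 := by
    intro k hk
    by_contra hcon
    push Not at hcon
    -- the image
    let G : (r : ℝ) → r ∈ X k (y k) → ↥(L X x) := fun r hr =>
      g ⟨toLex ((Int.ofNat k : ℤ), r), hmem k (y k) r le_rfl hr⟩
    obtain ⟨i, hi⟩ := hX k (y k)
      (fun j => {r | ∃ hr : r ∈ X k (y k), (ofLex (G r hr : ℤ ×ₗ ℝ)).1 = (j : ℤ)}) (by
        intro r hr
        rw [Set.mem_iUnion]
        have h0 := hcon r hr
        exact ⟨((ofLex (G r hr : ℤ ×ₗ ℝ)).1).toNat, hr, (Int.toNat_of_nonneg h0).symm⟩)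
    classical
    obtain ⟨r, ⟨⟨hr, hri⟩, -⟩, hr2⟩ := hi
      (fun r => if hr : r ∈ X k (y k) then (ofLex (G r hr : ℤ ×ₗ ℝ)).2 else 0) (by
        rintro a ⟨⟨ha, hai⟩, -⟩ b ⟨⟨hb, hbi⟩, -⟩ hab
        simp only [dif_pos ha, dif_pos hb]
        apply snd_lt
        · have : (⟨toLex ((Int.ofNat k : ℤ), a), hmem k (y k) a le_rfl ha⟩ : ↥(L X y)) <
              ⟨toLex ((Int.ofNat k : ℤ), b), hmem k (y k) b le_rfl hb⟩ := by
            rw [← Subtype.coe_lt_coe]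
            exact lex_lt_iff.2 (Or.inr ⟨rfl, hab⟩)
          exact Subtype.coe_lt_coe.2 (hg _ _ this)
        · rw [hai, hbi])
    simp only [dif_pos hr] at hr2
    have hm : (ofLex (G r hr : ℤ ×ₗ ℝ)).2 ∈ lab X x (ofLex (G r hr : ℤ ×ₗ ℝ)).1 := (G r hr).2
    rw [hri] at hm
    obtain ⟨m, hm1, hm2⟩ := (show (ofLex (G r hr : ℤ ×ₗ ℝ)).2 ∈ D X i (x i) from hm)
    refine hr2 i m ?_ hm2
    intro heq
    rw [Prod.mk.injEq] at heq
    obtain ⟨h1, h2⟩ := heq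
    subst h1
    have := hK i hk
    omega
  -- Fact 2
  have fact2 : ∀ p : ↥(L X y), (ofLex (g p : ℤ ×ₗ ℝ)).1 < 0 := by
    intro p
    obtain ⟨k, hk1, hk2⟩ : ∃ k : ℕ, K ≤ k ∧ (ofLex (p : ℤ ×ₗ ℝ)).1 < (k : ℤ) := by
      refine ⟨K + ((ofLex (p : ℤ ×ₗ ℝ)).1).toNat + 1, by omega, ?_⟩
      have := Int.self_le_toNat (ofLex (p : ℤ ×ₗ ℝ)).1
      push_cast
      omega
    obtain ⟨r, hr, hneg⟩ := fact1 k hk1
    have hlt : p < (⟨toLex ((Int.ofNat k : ℤ), r), hmem k (y k) r le_rfl hr⟩ : ↥(L X y)) := by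
      rw [← Subtype.coe_lt_coe, Prod.Lex.lt_iff]
      exact Or.inl hk2
    have h2 := mono_fst (Subtype.coe_lt_coe.2 (hg _ _ hlt)).le
    exact lt_of_le_of_lt h2 hneg
  -- Fact 3
  choose d hd using fun k => fam_nonempty hX k 0
  let P : ℕ → ↥(L X y) := fun k =>
    ⟨toLex ((Int.ofNat k : ℤ), d k), hmem k 0 (d k) (Nat.zero_le _) (hd k)⟩
  let a : ℕ → ℤ := fun k => (ofLex (g (P k) : ℤ ×ₗ ℝ)).1
  have ha_neg : ∀ k, a k < 0 := fun k => fact2 (P k)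
  have ha_mono : Monotone a := by
    apply monotone_nat_of_le_succ
    intro k
    apply mono_fst
    apply le_of_lt
    apply Subtype.coe_lt_coe.2
    apply hg
    rw [← Subtype.coe_lt_coe]
    apply lex_lt_iff.2
    left
    show ((k : ℕ) : ℤ) < ((k + 1 : ℕ) : ℤ)
    push_cast
    omega
  -- eventually constant
  obtain ⟨k1, hk1⟩ : ∃ k1, ∀ k, a k ≤ a k1 := by
    have hex : ∃ n : ℕ, ∃ k, (-a k).toNat = n := ⟨_, 0, rfl⟩
    classical
    obtain ⟨k1, hk1⟩ := Nat.find_spec hex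
    refine ⟨k1, fun k => ?_⟩
    have h1 := Nat.find_min' hex ⟨k, rfl⟩
    have h2 := ha_neg k
    have h3 := ha_neg k1
    omega
  have hconst : ∀ k, k1 ≤ k → a k = a k1 := fun k hk => le_antisymm (hk1 k) (ha_mono hk)
  obtain ⟨j, hj⟩ : ∃ j : ℕ, a k1 = Int.negSucc j := by
    have h3 := ha_neg k1
    refine ⟨(-a k1 - 1).toNat, ?_⟩
    rw [Int.negSucc_eq]
    omega
  -- the level
  let k : ℕ := k1 + (ee j).1 + 1
  have hkk1 : k1 < k := by show k1 < k1 + (ee j).1 + 1; omega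
  have hkne : (ee j).1 ≠ k := by show (ee j).1 ≠ k1 + (ee j).1 + 1; omega
  let G : (r : ℝ) → r ∈ X k 0 → ↥(L X x) := fun r hr =>
    g ⟨toLex ((Int.ofNat k : ℤ), r), hmem k 0 r (Nat.zero_le _) hr⟩
  have hG : ∀ (r : ℝ) (hr : r ∈ X k 0), (ofLex (G r hr : ℤ ×ₗ ℝ)).1 = Int.negSucc j := by
    intro r hr
    rw [← hj]
    apply le_antisymm
    · rw [← hconst (k + 1) (by omega)]
      apply mono_fst
      apply le_of_lt
      apply Subtype.coe_lt_coe.2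
      apply hg
      rw [← Subtype.coe_lt_coe]
      apply lex_lt_iff.2
      left
      show ((k : ℕ) : ℤ) < ((k + 1 : ℕ) : ℤ)
      push_cast
      omega
    · apply mono_fst
      apply le_of_lt
      apply Subtype.coe_lt_coe.2
      apply hg
      rw [← Subtype.coe_lt_coe]
      apply lex_lt_iff.2
      left
      show ((k1 : ℕ) : ℤ) < ((k : ℕ) : ℤ)
      exact_mod_cast hkk1
  obtain ⟨i, hi⟩ := hX k 0 (fun _ => X k 0) (by
    intro r hr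
    rw [Set.mem_iUnion]
    exact ⟨0, hr⟩)
  classical
  obtain ⟨r, ⟨hr, -⟩, hr2⟩ := hi
    (fun r => if hr : r ∈ X k 0 then (ofLex (G r hr : ℤ ×ₗ ℝ)).2 else 0) (by
      rintro a ⟨ha, -⟩ b ⟨hb, -⟩ hab
      simp only [dif_pos ha, dif_pos hb]
      apply snd_lt
      · have : (⟨toLex ((Int.ofNat k : ℤ), a), hmem k 0 a (Nat.zero_le _) ha⟩ : ↥(L X y)) <
            ⟨toLex ((Int.ofNat k : ℤ), b), hmem k 0 b (Nat.zero_le _) hb⟩ := by
          rw [← Subtype.coe_lt_coe]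
          exact lex_lt_iff.2 (Or.inr ⟨rfl, hab⟩)
        exact Subtype.coe_lt_coe.2 (hg _ _ this)
      · rw [hG a ha, hG b hb])
  simp only [dif_pos hr] at hr2
  have hm : (ofLex (G r hr : ℤ ×ₗ ℝ)).2 ∈ lab X x (ofLex (G r hr : ℤ ×ₗ ℝ)).1 := (G r hr).2
  rw [hG r hr] at hm
  obtain ⟨m, hm1, hm2⟩ :=
    (show (ofLex (G r hr : ℤ ×ₗ ℝ)).2 ∈ D X (ee j).1 (ee j).2 from hm)
  refine hr2 (ee j).1 m ?_ hm2
  intro heq
  rw [Prod.mk.injEq] at heq
  exact hkne heq.1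

end Pool.Agent.W271.BR
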